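import Pool.Agent.Helper51.RP.Goals2

/-!
# RP-NSP: primes with nontrivial decomposition group are harmless
-/

namespace Pool.Agent.Helper11.RP

open NumberField Polynomial Module IsDedekindDomain Pool.Agent.Helper51.SigLeo
open Pool.Agent.Helper51.RP

section
variable {K M : Type} [Field K] [Field M] [NumberField M] [Algebra K M]

lemma ordv_mul (w : HeightOneSpectrum (𝓞 M)) {x y : M} (hx : x ≠ 0) (hy : y ≠ 0) :
    ordv w (x * y) = ordv w x + ordv w y := by
  unfold ordv
  rw [map_mul, WithZero.log_mul ((Valuation.ne_zero_iff _).2 hx) ((Valuation.ne_zero_iff _).2 hy)]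
  ring

lemma ordv_one (w : HeightOneSpectrum (𝓞 M)) : ordv w (1 : M) = 0 := by
  unfold ordv
  rw [map_one]
  simp

/-- the valuation as a homomorphism -/
noncomputable def ordHom (w : HeightOneSpectrum (𝓞 M)) : Mˣ →* Multiplicative ℤ where
  toFun x := Multiplicative.ofAdd (ordv w (x : M))
  map_one' := by
    rw [Units.val_one, ordv_one]; rfl
  map_mul' x y := by
    rw [Units.val_mul, ordv_mul w x.ne_zero y.ne_zero]; rfl

/-- the valuation modulo `p` -/
noncomputable def ordp (p : ℕ) (w : HeightOneSpectrum (𝓞 M)) (x : Mˣ) : ZMod p :=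
  ((ordv w (x : M) : ℤ) : ZMod p)

lemma ordp_mul (p : ℕ) (w : HeightOneSpectrum (𝓞 M)) (x y : Mˣ) :
    ordp p w (x * y) = ordp p w x + ordp p w y := by
  unfold ordp
  rw [Units.val_mul, ordv_mul w x.ne_zero y.ne_zero]
  push_cast; ring

lemma ordp_one (p : ℕ) (w : HeightOneSpectrum (𝓞 M)) : ordp p w (1 : Mˣ) = 0 := by
  unfold ordp
  rw [Units.val_one, ordv_one]; simp

lemma ordp_pow (p : ℕ) (w : HeightOneSpectrum (𝓞 M)) (x : Mˣ) (n : ℕ) :
    ordp p w (x ^ n) = n * ordp p w x := by
  induction n with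
  | zero => rw [pow_zero, ordp_one]; simp
  | succ n ih => rw [pow_succ, ordp_mul, ih]; push_cast; ring

lemma ordp_prod (p : ℕ) (w : HeightOneSpectrum (𝓞 M)) {ι : Type} (s : Finset ι) (f : ι → Mˣ) :
    ordp p w (∏ i ∈ s, f i) = ∑ i ∈ s, ordp p w (f i) := by
  classical
  induction s using Finset.induction_on with
  | empty => rw [Finset.prod_empty, Finset.sum_empty, ordp_one]
  | insert a s ha ih => rw [Finset.prod_insert ha, Finset.sum_insert ha, ordp_mul, ih]

/-- the action of an automorphism on the units of `M` -/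
noncomputable def um (g : M ≃ₐ[K] M) : Mˣ →* Mˣ := Units.map ((g : M →+* M) : M →* M)

lemma um_val (g : M ≃ₐ[K] M) (x : Mˣ) : ((um g x : Mˣ) : M) = g (x : M) := rfl

lemma um_mul (g h : M ≃ₐ[K] M) (x : Mˣ) : um (g * h) x = um g (um h x) := by
  ext; rfl

/-- the shift operator -/
noncomputable def shift (p : ℕ) (δ : M ≃ₐ[K] M) :
    Module.End (ZMod p) ((M ≃ₐ[K] M) → ZMod p) where
  toFun f g := f (g * δ)
  map_add' f f' := rfl
  map_smul' c f := rfl

lemma shift_pow (p : ℕ) (δ : M ≃ₐ[K] M) (j : ℕ) (f : (M ≃ₐ[K] M) → ZMod p) (g : M ≃ₐ[K] M) :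
    ((shift p δ) ^ j) f g = f (g * δ ^ j) := by
  induction j generalizing g with
  | zero => simp
  | succ j ih =>
    rw [pow_succ', Module.End.mul_apply]
    show ((shift p δ) ^ j) f (g * δ) = _
    rw [ih, mul_assoc, ← pow_succ']

lemma aeval_shift (p : ℕ) (δ : M ≃ₐ[K] M) (P : (ZMod p)[X]) (f : (M ≃ₐ[K] M) → ZMod p)
    (g : M ≃ₐ[K] M) :
    (aeval (shift p δ) P) f g = ∑ j ∈ P.support, P.coeff j * f (g * δ ^ j) := by
  rw [aeval_def, eval₂_eq_sum, Polynomial.sum, LinearMap.sum_apply, Finset.sum_apply]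
  refine Finset.sum_congr rfl (fun j _ => ?_)
  rw [Module.End.mul_apply]
  show P.coeff j * ((shift p δ) ^ j) f g = _
  rw [shift_pow]

/-- the decomposition group -/
def dec (K : Type) {M : Type} [Field K] [Field M] [NumberField M] [Algebra K M]
    (w : HeightOneSpectrum (𝓞 M)) : Subgroup (M ≃ₐ[K] M) where
  carrier := {g | ∀ y : M, w.valuation M (g y) = w.valuation M y}
  one_mem' := fun y => rfl
  mul_mem' := by
    intro g h hg hh y
    show w.valuation M (g (h y)) = _
    rw [hg, hh]
  inv_mem' := by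
    intro g hg y
    have := hg (g⁻¹ y)
    rw [← this]
    congr 1
    exact g.apply_symm_apply y

end

theorem s_nsp : S_NSP := by
  intro p _ k _ _ K M _ _ _ _ _ m δ ζ Φ P hP hδ hm w hw x hx
  classical
  have hm1 : 1 < m := hP.one_lt
  have hfin : FiniteDimensional K M := FiniteDimensional.of_finrank_pos (by omega)
  have hcard : Nat.card (M ≃ₐ[K] M) = m := by rw [IsGalois.card_aut_eq_finrank, hm]
  have hgen : ∀ g : M ≃ₐ[K] M, g ∈ Subgroup.zpowers δ := by
    have : Subgroup.zpowers δ = ⊤ := by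
      haveI : Finite (M ≃ₐ[K] M) := Nat.finite_of_card_ne_zero (by omega)
      apply Subgroup.eq_top_of_card_eq
      rw [Nat.card_zpowers, hδ, hcard]
    intro g; rw [this]; trivial
  -- an element of the decomposition group
  unfold FreeP at hw
  push Not at hw
  obtain ⟨h, hh, hne⟩ := hw
  have hhd : h ∈ dec K w := hh
  obtain ⟨e', he'⟩ := Subgroup.mem_zpowers_iff.1 (hgen h)
  set e : ℕ := Int.gcd e' m with he
  have hem : e ∣ m := by
    have := Int.gcd_dvd_right (a := e') (b := m)
    exact_mod_cast this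
  have he0 : 0 < e := Nat.pos_of_dvd_of_pos hem (by omega)
  have hedec : δ ^ e ∈ dec K w := by
    have h1 : (e : ℤ) = e' * Int.gcdA e' m + m * Int.gcdB e' m := Int.gcd_eq_gcd_ab e' m
    have h2 : δ ^ (e : ℤ) = h ^ (Int.gcdA e' m) := by
      rw [h1, zpow_add, zpow_mul, he', zpow_mul]
      have : δ ^ (m : ℤ) = 1 := by
        rw [zpow_natCast, ← hδ, pow_orderOf_eq_one]
      rw [this, one_zpow, mul_one]
    rw [← zpow_natCast, h2]
    exact Subgroup.zpow_mem _ hhd _
  have helt : e < m := by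
    rcases Nat.lt_or_ge e m with h1 | h1
    · exact h1
    · exfalso
      have h2 : e = m := le_antisymm (Nat.le_of_dvd (by omega) hem) h1
      have h3 : (m : ℤ) ∣ e' := by
        have := Int.gcd_dvd_left (a := e') (b := m)
        rw [← he, h2] at this
        exact this
      apply hne
      rw [← he']
      rw [← hδ] at h3
      exact orderOf_dvd_iff_zpow_eq_one.1 h3
  -- the function
  set n : (M ≃ₐ[K] M) → ZMod p := fun g => ordp p w (um g x) with hn
  have hPn : (aeval (shift p δ) P) n = 0 := by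
    funext g
    rw [aeval_shift, Pi.zero_apply]
    obtain ⟨y, hy⟩ := hx
    have h1 : um g (pol P δ x) = ∏ j ∈ P.support, (um (g * δ ^ j) x) ^ (P.coeff j).val := by
      unfold pol
      rw [MonoidHom.finset_prod_apply, map_prod]
      refine Finset.prod_congr rfl (fun j _ => ?_)
      rw [MonoidHom.pow_apply, map_pow, um_mul]
      rfl
    have h2 : ordp p w (um g (pol P δ x)) = ∑ j ∈ P.support, P.coeff j * n (g * δ ^ j) := by
      rw [h1, ordp_prod]
      refine Finset.sum_congr rfl (fun j _ => ?_)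
      rw [ordp_pow, ZMod.natCast_zmod_val]
    rw [← h2, hy, map_pow, ordp_pow]
    simp
  have hEn : (aeval (shift p δ) (X ^ e - 1 : (ZMod p)[X])) n = 0 := by
    rw [map_sub, map_pow, aeval_X, map_one]
    funext g
    rw [LinearMap.sub_apply, Pi.sub_apply, shift_pow, Module.End.one_apply, Pi.zero_apply,
      sub_eq_zero]
    show ordp p w (um (g * δ ^ e) x) = ordp p w (um g x)
    have hcomm : g * δ ^ e = δ ^ e * g := by
      obtain ⟨i, hi⟩ := Subgroup.mem_zpowers_iff.1 (hgen g)
      rw [← hi]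
      exact ((Commute.refl δ).zpow_left i).pow_right e
    rw [hcomm, um_mul]
    unfold ordp ordv
    rw [um_val, hedec]
  obtain ⟨u, v, huv⟩ := hP.cop e he0 helt hem
  have hn0 : n = 0 := by
    have h1 : (aeval (shift p δ) (u * P + v * (X ^ e - 1))) n = n := by
      rw [huv, map_one, Module.End.one_apply]
    rw [← h1, map_add, map_mul, map_mul, LinearMap.add_apply, Module.End.mul_apply,
      Module.End.mul_apply, hPn, hEn, map_zero, map_zero, add_zero]
  have h1 : n 1 = 0 := by rw [hn0]; rfl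
  have h2 : n 1 = ((ordv w (x : M) : ℤ) : ZMod p) := rfl
  rw [h2] at h1
  exact (ZMod.intCast_zmod_eq_zero_iff_dvd _ p).1 h1

end Pool.Agent.Helper11.RP
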